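import Mathlib

set_option autoImplicit false

namespace Pool.Agent.Results.MP_208885_nt.Proof

open Finset

/-- The set of minimal `m`-Markoff triples. -/
def O (m : ℕ) : Set (ℕ × ℕ × ℕ) :=
  {t | 0 < t.1 ∧ t.1 ≤ t.2.1 ∧ t.2.1 ≤ t.2.2 ∧
    t.1 ^ 2 + t.2.1 ^ 2 + t.2.2 ^ 2 = 3 * t.1 * t.2.1 * t.2.2 + m ∧ 3 * t.1 * t.2.1 ≤ t.2.2}

theorem pow_le' (K : ℕ) : ∃ C : ℕ, 1 ≤ C ∧ ∀ r : ℕ, r ^ K ≤ C * 2 ^ r := by
  obtain ⟨C, hC⟩ := (tendsto_pow_const_div_const_pow_of_one_lt K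
    (show (1 : ℝ) < 2 by norm_num)).bddAbove_range
  obtain ⟨C', hC'⟩ := exists_nat_ge C
  refine ⟨C' + 1, by omega, fun r => ?_⟩
  have := (hC ⟨r, rfl⟩).trans hC'
  rw [div_le_iff₀ (by positivity)] at this
  have h : r ^ K ≤ C' * 2 ^ r := by exact_mod_cast this
  exact h.trans (Nat.mul_le_mul_right _ (by omega))

theorem div_bound (k : ℕ) (hk : 0 < k) : ∃ C : ℕ, 1 ≤ C ∧ ∀ n, n.divisors.card ^ k ≤ C ^ k * n := by
  obtain ⟨c, hc1, hc⟩ := pow_le' k
  refine ⟨(2 * c) ^ (2 ^ k), Nat.one_le_pow _ _ (by omega), fun n => ?_⟩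
  rcases Nat.eq_zero_or_pos n with rfl | hn
  · simp [hk.ne']
  refine le_trans ?_ (Nat.mul_le_mul_right n (Nat.le_self_pow hk.ne' _))
  rw [Nat.card_divisors hn.ne', ← Finset.prod_pow]
  have h1 : ∀ p ∈ n.primeFactors, (n.factorization p + 1) ^ k ≤
      (if p < 2 ^ k then 2 * c else 1) * p ^ n.factorization p := by
    intro p hp
    have h2 := (Nat.prime_of_mem_primeFactors hp).two_le
    generalize n.factorization p = e
    split_ifs with h
    · calc _ ≤ c * 2 ^ (e + 1) := hc _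
        _ = 2 * c * 2 ^ e := by ring
        _ ≤ _ := Nat.mul_le_mul_left _ (Nat.pow_le_pow_left h2 e)
    · calc _ ≤ (2 ^ e) ^ k := Nat.pow_le_pow_left Nat.lt_two_pow_self k
        _ = (2 ^ k) ^ e := by ring
        _ ≤ _ := by rw [one_mul]; exact Nat.pow_le_pow_left (by omega) e
  refine (Finset.prod_le_prod' h1).trans ?_
  rw [Finset.prod_mul_distrib, Finset.prod_ite, Finset.prod_const_one, mul_one, Finset.prod_const]
  refine Nat.mul_le_mul (Nat.pow_le_pow_right (by omega) ?_) (le_of_eq ?_)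
  · refine (Finset.card_le_card (t := Finset.range (2 ^ k)) fun p hp => ?_).trans (by simp)
    simpa using (Finset.mem_filter.1 hp).2
  · exact Nat.prod_factorization_pow_eq_self hn.ne'


def Bad (m : ℕ) : Prop := ∃ x y : ℕ, 0 < x ∧ 0 < y ∧ y ^ 2 + x ^ 2 * (3 * y + 2) = m

def U (m : ℕ) : Finset (ℕ × ℕ × ℕ) :=
  (range (m + 1) ×ˢ range (m + 1) ×ˢ range (m + 1)).filter fun t => 0 < t.1 ∧ 0 < t.2.1 ∧
    0 < t.2.2 ∧ t.1 ^ 2 + t.2.1 ^ 2 + t.2.2 ^ 2 + 3 * t.1 * t.2.1 * t.2.2 = m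

lemma mem_U {m a b c : ℕ} : (a, b, c) ∈ U m ↔
    0 < a ∧ 0 < b ∧ 0 < c ∧ a ^ 2 + b ^ 2 + c ^ 2 + 3 * a * b * c = m := by
  simp only [U, mem_filter, mem_product, mem_range]
  refine ⟨fun h => h.2, fun h => ⟨⟨?_, ?_, ?_⟩, h⟩⟩ <;>
    nlinarith [h.2.2.2, Nat.zero_le (a * b * c), Nat.zero_le (a ^ 2), Nat.zero_le (b ^ 2),
      Nat.zero_le (c ^ 2)]

lemma ne_of {m a b c : ℕ} (hb : ¬Bad m) (h : (a, b, c) ∈ U m) : a ≠ b := by
  rintro rfl
  obtain ⟨h1, -, h3, h4⟩ := mem_U.1 h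
  exact hb ⟨a, c, h1, h3, by rw [← h4]; ring⟩

lemma rot {m a b c : ℕ} (h : (a, b, c) ∈ U m) : (b, c, a) ∈ U m := by
  obtain ⟨h1, h2, h3, h4⟩ := mem_U.1 h
  exact mem_U.2 ⟨h2, h3, h1, by rw [← h4]; ring⟩

lemma swp {m a b c : ℕ} (h : (a, b, c) ∈ U m) : (b, a, c) ∈ U m := by
  obtain ⟨h1, h2, h3, h4⟩ := mem_U.1 h
  exact mem_U.2 ⟨h2, h1, h3, by rw [← h4]; ring⟩

lemma three_U {m : ℕ} (hb : ¬Bad m) : 3 ∣ #(U m) := by
  by_contra h
  have : Fact (Nat.Prime 3) := ⟨Nat.prime_three⟩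
  let σ : Equiv.Perm (U m) :=
    { toFun := fun t => ⟨(t.1.2.1, t.1.2.2, t.1.1), rot t.2⟩
      invFun := fun t => ⟨(t.1.2.2, t.1.1, t.1.2.1), rot (rot t.2)⟩
      left_inv := fun _ => rfl
      right_inv := fun _ => rfl }
  obtain ⟨t, ht⟩ := Equiv.Perm.exists_fixed_point_of_prime (p := 3) (n := 1)
    (by simpa using h) (σ := σ) (by ext t <;> rfl)
  exact ne_of hb t.2 (congrArg (fun t => t.1.1) ht).symm

lemma good {m : ℕ} (h8 : m % 8 = 6) (hb : ¬Bad m) : (O m).ncard % 3 = 0 := by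
  have h1 : O m = (fun t : ℕ × ℕ × ℕ => (t.1, t.2.1, 3 * t.1 * t.2.1 + t.2.2)) ''
      ((U m).filter fun t => t.1 < t.2.1) := by
    ext ⟨a, b, c⟩
    simp only [O, Set.mem_ofPred_eq, coe_filter, Set.mem_image, Prod.mk.injEq, Prod.exists]
    constructor
    · rintro ⟨h1, h2, -, h4, h5⟩
      obtain ⟨d, rfl⟩ := Nat.exists_eq_add_of_le h5
      have e : a ^ 2 + b ^ 2 + d ^ 2 + 3 * a * b * d = m := by nlinarith
      have hd : 0 < d := by
        rcases Nat.eq_zero_or_pos d with rfl | h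
        · exfalso
          have e1 : a ^ 2 % 8 = 0 ∨ a ^ 2 % 8 = 1 ∨ a ^ 2 % 8 = 4 := by
            rw [Nat.pow_mod]; have := Nat.mod_lt a (show 0 < 8 by omega)
            interval_cases a % 8 <;> simp
          have e2 : b ^ 2 % 8 = 0 ∨ b ^ 2 % 8 = 1 ∨ b ^ 2 % 8 = 4 := by
            rw [Nat.pow_mod]; have := Nat.mod_lt b (show 0 < 8 by omega)
            interval_cases b % 8 <;> simp
          simp at e
          omega
        · exact h
      have hu : (a, b, d) ∈ U m := mem_U.2 ⟨h1, by omega, hd, e⟩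
      exact ⟨a, b, d, ⟨hu, lt_of_le_of_ne h2 (ne_of hb hu)⟩, rfl, rfl, rfl⟩
    · rintro ⟨a, b, d, ⟨hu, hl⟩, rfl, rfl, rfl⟩
      obtain ⟨h1, h2, h3, h4⟩ := mem_U.1 hu
      exact ⟨h1, hl.le, by nlinarith, by nlinarith, by omega⟩
  rw [h1, Set.ncard_image_of_injective, Set.ncard_coe_finset]
  · have h2 := card_filter_add_card_filter_not (s := U m) (fun t => t.1 < t.2.1)
    have h3 : #((U m).filter fun t => ¬t.1 < t.2.1) = #((U m).filter fun t => t.1 < t.2.1) := by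
      refine card_bij' (fun t _ => (t.2.1, t.1, t.2.2)) (fun t _ => (t.2.1, t.1, t.2.2)) ?_ ?_
        (fun _ _ => rfl) (fun _ _ => rfl)
      · intro t ht
        obtain ⟨h, h'⟩ := mem_filter.1 ht
        exact mem_filter.2 ⟨swp h, lt_of_le_of_ne (not_lt.1 h') (ne_of hb h).symm⟩
      · intro t ht
        obtain ⟨h, h'⟩ := mem_filter.1 ht
        exact mem_filter.2 ⟨swp h, by simp only; omega⟩
    have := three_U hb
    omega
  · rintro ⟨a, b, c⟩ ⟨a', b', c'⟩ h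
    simp only [Prod.mk.injEq] at h
    obtain ⟨rfl, rfl, h⟩ := h
    rw [Nat.add_left_cancel h]

def val (p : ℕ × ℕ) : ℕ :=
  1 + (8 * p.1 + 1) ^ 2 + (8 * p.2 + 1) ^ 2 + 3 * (8 * p.1 + 1) * (8 * p.2 + 1)

lemma val_mod (p : ℕ × ℕ) : val p % 8 = 6 := by
  have : val p = 6 + 8 * (5 * p.1 + 5 * p.2 + 8 * p.1 ^ 2 + 8 * p.2 ^ 2 + 24 * p.1 * p.2) := by
    unfold val; ring
  omega

lemma cs {α : Type*} [DecidableEq α] (s : Finset α) (f : α → ℕ) :
    s.card ^ 2 ≤ #(s.image f) * #((s ×ˢ s).filter fun q => f q.1 = f q.2) := by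
  rw [card_eq_sum_card_image f s, card_eq_sum_card_fiberwise (f := fun q : α × α => f q.1)
    (s := (s ×ˢ s).filter fun q => f q.1 = f q.2) (t := s.image f)
    (fun q hq => mem_image_of_mem _ (mem_product.1 (mem_filter.1 hq).1).1)]
  refine sq_sum_le_card_mul_sum_sq.trans (le_of_eq ?_)
  congr 1
  refine sum_congr rfl fun v _ => ?_
  rw [sq, ← card_product]
  congr 1
  ext ⟨a, b⟩
  simp only [mem_product, mem_filter]
  constructor
  · rintro ⟨⟨h1, h2⟩, h3, h4⟩; exact ⟨⟨⟨h1, h3⟩, h2.trans h4.symm⟩, h2⟩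
  · rintro ⟨⟨⟨h1, h3⟩, h2⟩, h4⟩; exact ⟨⟨h1, h4⟩, h3, h2 ▸ h4⟩

lemma energy (T D : ℕ) (hD : ∀ n ≤ 320 * T ^ 2, n.divisors.card ≤ D) :
    #(((range T ×ˢ range T) ×ˢ (range T ×ˢ range T)).filter fun q => val q.1 = val q.2) ≤
      T ^ 2 + D * T ^ 2 := by
  set E := ((range T ×ˢ range T) ×ˢ (range T ×ˢ range T)).filter fun q => val q.1 = val q.2
  rw [← card_filter_add_card_filter_not (s := E) (fun q => q.1.2 = q.2.2)]
  refine Nat.add_le_add ?_ ?_
  · rw [show T ^ 2 = #(range T ×ˢ range T) by simp [sq]]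
    refine card_le_card_of_injOn (fun q => q.1) (fun q hq => ?_) ?_
    · exact (mem_product.1 (mem_filter.1 (mem_filter.1 hq).1).1).1
    · have key : ∀ q ∈ E.filter (fun q => q.1.2 = q.2.2), q.2 = q.1 := by
        rintro ⟨⟨i, j⟩, i', j'⟩ hq
        obtain ⟨h1, h2⟩ := mem_filter.1 hq
        have h3 := (mem_filter.1 h1).2
        simp only [val] at h2 h3
        subst h2
        have : i' = i := by
          rcases lt_trichotomy i' i with h | h | h
          · nlinarith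
          · exact h
          · nlinarith
        rw [this]
      intro q hq q' hq' h
      exact Prod.ext h (by rw [key q hq, key q' hq']; exact h)
  · rw [show T ^ 2 = #(range T ×ˢ range T) by simp [sq]]
    refine card_le_mul_card_image_of_maps_to (f := fun q => (q.1.2, q.2.2)) (fun q hq => ?_) _ ?_
    · have := mem_product.1 (mem_filter.1 (mem_filter.1 hq).1).1
      exact mem_product.2 ⟨(mem_product.1 this.1).2, (mem_product.1 this.2).2⟩
    · rintro ⟨j, j'⟩ hj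
      obtain ⟨h1, h2⟩ := mem_product.1 hj
      rw [mem_range] at h1 h2
      simp only at h1 h2
      set N : ℤ := 5 * ((8 * j + 1) ^ 2 - (8 * j' + 1) ^ 2) with hN
      have key : ∀ q ∈ (E.filter fun q => ¬q.1.2 = q.2.2).filter
          (fun q => (q.1.2, q.2.2) = (j, j')), q.1.2 = j ∧ q.2.2 = j' ∧ N ≠ 0 ∧
          (16 * ((q.1.1 : ℤ) - q.2.1) + 24 * (j - j')) *
            (16 * ((q.1.1 : ℤ) + q.2.1) + 24 * (j + j') + 10) = N := by
        rintro ⟨⟨i, k⟩, i', k'⟩ hq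
        obtain ⟨h1, h2⟩ := mem_filter.1 hq
        obtain ⟨h3, h4⟩ := mem_filter.1 h1
        have h5 := (mem_filter.1 h3).2
        simp only [Prod.mk.injEq] at h2
        obtain ⟨rfl, rfl⟩ := h2
        simp only [val] at h4 h5
        zify at h4 h5
        refine ⟨rfl, rfl, fun h => ?_, by rw [hN]; linear_combination 4 * h5⟩
        have : (40 * ((k : ℤ) - k')) * (8 * k + 8 * k' + 2) = 0 := by rw [← h, hN]; ring
        rcases mul_eq_zero.1 this with h | h <;> omega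
      refine le_trans ?_ (hD N.natAbs ?_)
      · refine card_le_card_of_injOn
          (fun q => (16 * ((q.1.1 : ℤ) - q.2.1) + 24 * (j - j')).natAbs) (fun q hq => ?_) ?_
        · obtain ⟨-, -, a3, a4⟩ := key q hq
          exact mem_coe.2 (Nat.mem_divisors.2 ⟨Int.natAbs_dvd_natAbs.2 ⟨_, a4.symm⟩, by simpa⟩)
        · rintro ⟨⟨i, k⟩, i', k'⟩ hq ⟨⟨l, n⟩, l', n'⟩ hq' h
          obtain ⟨a1, a2, a3, a4⟩ := key _ hq
          obtain ⟨b1, b2, -, b4⟩ := key _ hq'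
          simp only at a1 a2 a4 b1 b2 b4 h
          subst a1 a2 b1 b2
          rcases Int.natAbs_eq_natAbs_iff.1 h with h | h
          · rw [h, ← b4] at a4
            have := mul_left_cancel₀ (left_ne_zero_of_mul (b4 ▸ a3)) a4
            have e1 : i = l := by omega
            have e2 : i' = l' := by omega
            rw [e1, e2]
          · rw [h, ← b4, neg_mul, ← mul_neg] at a4
            have := mul_left_cancel₀ (left_ne_zero_of_mul (b4 ▸ a3)) a4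
            omega
      · zify
        rw [abs_le]
        constructor <;> nlinarith [Int.natCast_nonneg j, Int.natCast_nonneg j',
          (by exact_mod_cast h1 : (j : ℤ) + 1 ≤ T), (by exact_mod_cast h2 : (j' : ℤ) + 1 ≤ T)]

lemma bad_card (t : ℕ) (ht : 1 ≤ t) : ∃ B : Finset ℕ, B.card ≤ 17000 * t ^ 5 ∧
    ∀ m ≤ 400 * t ^ 6, Bad m → m ∈ B := by
  refine ⟨(range (t ^ 2 + 1) ×ˢ range (20 * t ^ 3 + 1) ∪
    range (20 * t ^ 3 + 1) ×ˢ range (400 * t ^ 2 + 1)).image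
    fun p => p.2 ^ 2 + p.1 ^ 2 * (3 * p.2 + 2), ?_, ?_⟩
  · refine card_image_le.trans ((card_union_le _ _).trans ?_)
    simp only [card_product, card_range]
    have h2 : 1 ≤ t ^ 2 := Nat.one_le_pow _ _ ht
    have h3 : 1 ≤ t ^ 3 := Nat.one_le_pow _ _ ht
    have : (401 * t ^ 2) * (21 * t ^ 3) = 8421 * t ^ 5 := by ring
    have a1 := Nat.mul_le_mul (show t ^ 2 + 1 ≤ 401 * t ^ 2 by omega)
      (show 20 * t ^ 3 + 1 ≤ 21 * t ^ 3 by omega)
    have a2 := Nat.mul_le_mul (show 400 * t ^ 2 + 1 ≤ 401 * t ^ 2 by omega)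
      (show 20 * t ^ 3 + 1 ≤ 21 * t ^ 3 by omega)
    rw [mul_comm (20 * t ^ 3 + 1) (400 * t ^ 2 + 1)]
    omega
  · rintro m hm ⟨x, y, hx, hy, rfl⟩
    refine mem_image.2 ⟨(x, y), ?_, rfl⟩
    have e : 400 * t ^ 6 = (20 * t ^ 3) ^ 2 := by ring
    have h1 : y ≤ 20 * t ^ 3 := by
      rw [← Nat.pow_le_pow_iff_left two_ne_zero]; omega
    have h2 : x ≤ 20 * t ^ 3 := by
      rw [← Nat.pow_le_pow_iff_left two_ne_zero]; nlinarith
    simp only [mem_union, mem_product, mem_range]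
    by_cases c : x ≤ t ^ 2
    · left; omega
    · right
      refine ⟨by omega, ?_⟩
      by_contra h
      have a1 : (t ^ 2) ^ 2 ≤ x ^ 2 := Nat.pow_le_pow_left (by omega) 2
      have a2 := Nat.mul_le_mul a1 (show 400 * t ^ 2 + 1 ≤ 3 * y + 2 by omega)
      have a3 : 0 < (t ^ 2) ^ 2 := by positivity
      have : (t ^ 2) ^ 2 * (400 * t ^ 2 + 1) = 400 * t ^ 6 + (t ^ 2) ^ 2 := by ring
      omega

lemma fin (m : ℕ) : (O m).Finite := by
  refine ((range (m + 1) ×ˢ range (m + 1) ×ˢ range (3 * m * m + m + 1)).finite_toSet).subset ?_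
  rintro ⟨a, b, c⟩ ⟨h1, h2, h3, h4, h5⟩
  simp only at h1 h2 h3 h4 h5
  obtain ⟨d, rfl⟩ := Nat.exists_eq_add_of_le h5
  have e : a ^ 2 + b ^ 2 + d ^ 2 + 3 * a * b * d = m := by nlinarith
  simp only [coe_product, coe_range, Set.mem_prod, Set.mem_Iio]
  have a1 := Nat.le_self_pow two_ne_zero a
  have a2 := Nat.le_self_pow two_ne_zero b
  have a3 := Nat.le_self_pow two_ne_zero d
  have a4 := Nat.mul_le_mul (Nat.mul_le_mul_left 3 (show a ≤ m by omega)) (show b ≤ m by omega)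
  omega

theorem result : {m : ℕ | 1 < m ∧ (O m).Finite ∧ (O m).Nonempty ∧ (O m).ncard % 3 = 0}.Infinite := by
  intro hf
  obtain ⟨C, hC1, hC⟩ := div_bound 12 (by omega)
  obtain ⟨K, hK⟩ : ∃ K, hf.toFinset.card = K := ⟨_, rfl⟩
  obtain ⟨u, hu⟩ : ∃ u, u = (K + 17000) * (1 + 2 * C) + 1 := ⟨_, rfl⟩
  have u1 : 1 ≤ u := by omega
  obtain ⟨B, hB, hB'⟩ := bad_card (u ^ 2) (Nat.one_le_pow _ _ u1)
  have h1 := cs (range (u ^ 6) ×ˢ range (u ^ 6)) val
  have h2 := energy (u ^ 6) (2 * C * u) fun n hn => by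
    rw [← Nat.pow_le_pow_iff_left (show 12 ≠ 0 by omega)]
    refine (hC n).trans ((Nat.mul_le_mul_left _ hn).trans ?_)
    have : (2 * C * u) ^ 12 = C ^ 12 * (4096 * (u ^ 6) ^ 2) := by ring
    rw [this]
    exact Nat.mul_le_mul_left _ (Nat.mul_le_mul_right _ (by omega))
  have h3 : (range (u ^ 6) ×ˢ range (u ^ 6)).image val ⊆ hf.toFinset ∪ B := by
    intro m hm
    obtain ⟨⟨i, j⟩, hp, rfl⟩ := mem_image.1 hm
    simp only [mem_product, mem_range] at hp
    by_cases c : Bad (val (i, j))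
    · refine mem_union_right _ (hB' _ ?_ c)
      have e : (u ^ 2) ^ 6 = (u ^ 6) ^ 2 := by ring
      rw [e]
      unfold val
      have a1 : 8 * i + 1 ≤ 8 * u ^ 6 := by omega
      have a2 : 8 * j + 1 ≤ 8 * u ^ 6 := by omega
      have a3 := Nat.mul_le_mul a1 a2
      have a4 := Nat.mul_le_mul a1 a1
      have a5 := Nat.mul_le_mul a2 a2
      simp only
      nlinarith
    · refine mem_union_left _ (hf.mem_toFinset.2 ⟨?_, ?_, ?_, good (val_mod _) c⟩)
      · have := val_mod (i, j); omega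
      · exact fin _
      · refine ⟨(1, 8 * i + 1, 3 * (8 * i + 1) + (8 * j + 1)), ?_⟩
        simp only [O, val, Set.mem_ofPred_eq]
        exact ⟨one_pos, by omega, by omega, by ring, by omega⟩
  have h4 := (card_le_card h3).trans (card_union_le _ _)
  have h5 := h1.trans (Nat.mul_le_mul (h4.trans (Nat.add_le_add_left hB _)) h2)
  rw [card_product, card_range, hK] at h5
  have p10 : 1 ≤ u ^ 10 := Nat.one_le_pow _ _ u1
  have h6 : K + 17000 * (u ^ 2) ^ 5 ≤ (K + 17000) * u ^ 10 := by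
    rw [← pow_mul, add_mul]
    exact Nat.add_le_add_right (Nat.le_mul_of_pos_right _ p10) _
  have h7 : (u ^ 6) ^ 2 + 2 * C * u * (u ^ 6) ^ 2 ≤ (1 + 2 * C) * u * u ^ 12 := by
    have : u ^ 12 ≤ u * u ^ 12 := Nat.le_mul_of_pos_left _ u1
    rw [← pow_mul, add_mul, add_mul, one_mul]
    exact Nat.add_le_add_right this _
  have h8 := h5.trans (Nat.mul_le_mul h6 h7)
  have h9 : (u ^ 6 * u ^ 6) ^ 2 = u * u ^ 23 := by ring
  have h10 : (K + 17000) * u ^ 10 * ((1 + 2 * C) * u * u ^ 12) =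
      (K + 17000) * (1 + 2 * C) * u ^ 23 := by ring
  rw [h9, h10] at h8
  have := Nat.le_of_mul_le_mul_right h8 (by positivity)
  omega

end Pool.Agent.Results.MP_208885_nt.Proof
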